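import Pool.Agent.NGM.StmtsK

/-!
# Row PSI (MP_c602ad_al, squad NGM): ultrafilter limit
-/

set_option autoImplicit false

namespace Pool.Agent.NGM.H40

open scoped Pointwise Classical
open Filter Topology

universe u

theorem neg_smul {Q : Type u} [Group Q] {ψ : Q → ℝ} (h : Neg ψ) {c : ℝ} (hc : 0 ≤ c) :
    Neg (fun g => c * ψ g) := by
  refine ⟨by simp [h.one], fun g => by simp only [h.inv], fun g => mul_nonneg hc (h.nonneg g),
    fun g k => ?_, fun x s k => ?_⟩
  · simp only [Real.sqrt_mul hc]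
    rw [← mul_add]
    exact mul_le_mul_of_nonneg_left (h.tri g k) (Real.sqrt_nonneg _)
  · have e : c * ψ (k⁻¹ * x * s) - c * ψ (k⁻¹ * x) - c * ψ (x * s) + c * ψ x =
        c * (ψ (k⁻¹ * x * s) - ψ (k⁻¹ * x) - ψ (x * s) + ψ x) := by ring
    simp only [Real.sqrt_mul hc]
    rw [e, abs_mul, abs_of_nonneg hc]
    have e2 : 2 * (√c * √(ψ s) * (√c * √(ψ k))) = c * (2 * (√(ψ s) * √(ψ k))) := by
      have : √c * √c = c := Real.mul_self_sqrt hc
      calc 2 * (√c * √(ψ s) * (√c * √(ψ k))) = (√c * √c) * (2 * (√(ψ s) * √(ψ k))) := by ring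
        _ = _ := by rw [this]
    rw [e2]
    exact mul_le_mul_of_nonneg_left (h.four x s k) hc

theorem exists_pow {Q : Type u} [Group Q] {K : Finset Q} (hK : GenSet K) (g : Q) :
    ∃ n : ℕ, g ∈ K ^ n := by
  have hinv : K⁻¹ = K := by
    ext x
    rw [Finset.mem_inv']
    constructor
    · intro h
      have := hK.inv _ h
      rwa [inv_inv] at this
    · exact hK.inv x
  have hg : g ∈ Subgroup.closure (K : Set Q) := by rw [hK.top]; trivial
  induction hg using Subgroup.closure_induction with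
  | mem x hx => exact ⟨1, by rw [pow_one]; exact hx⟩
  | one => exact ⟨0, by rw [pow_zero]; exact Finset.mem_one.2 rfl⟩
  | mul x y _ _ hx hy =>
    obtain ⟨m, hm⟩ := hx
    obtain ⟨n, hn⟩ := hy
    exact ⟨m + n, by rw [pow_add]; exact Finset.mul_mem_mul hm hn⟩
  | inv x _ hx =>
    obtain ⟨m, hm⟩ := hx
    refine ⟨m, ?_⟩
    rw [← hinv, inv_pow]
    exact Finset.inv_mem_inv hm

theorem av_aff {Q : Type u} [Group Q] {K : Finset Q} (hK : GenSet K) (a c : ℝ) (w : Q → ℝ) :
    av K (fun x => a * (c - w x)) = fun x => a * (c - av K w x) := by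
  have hc : (K.card : ℝ) ≠ 0 := by
    exact_mod_cast (Finset.card_pos.2 ⟨1, hK.one⟩).ne'
  funext x
  simp only [av]
  rw [← Finset.mul_sum, Finset.sum_sub_distrib, Finset.sum_const, nsmul_eq_mul]
  field_simp

theorem av_tendsto {Q : Type u} [Group Q] (K : Finset Q) {U : Filter ℕ} {F : ℕ → Q → ℝ}
    {f : Q → ℝ} (h : ∀ g, Tendsto (fun j => F j g) U (𝓝 (f g))) (x : Q) :
    Tendsto (fun j => av K (F j) x) U (𝓝 (av K f x)) := by
  simp only [av]
  exact (tendsto_finsetSum _ (fun s _ => h (x * s))).const_mul _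

theorem psi (hNGP : NgpStmt.{u}) (hBND : BndStmt.{u}) (hPZE : PzeStmt.{u})
    (hGOO : GooStmt.{u}) : PsiStmt.{u} := by
  intro Q _ K D hK hP hQ
  have hpos : ∀ k, 0 < aa K k := (hPZE Q K hK hQ).1
  have hex : ∀ j : ℕ, ∃ k, (1 - 1 / ((j : ℝ) + 1)) * aa K k ≤ aa K (k + 1) := fun j =>
    (hGOO Q K D hK hP hQ (1 / ((j : ℝ) + 1)) (by positivity)).exists
  choose k hk using hex
  let F : ℕ → Q → ℝ := fun j g => (aa K (k j))⁻¹ * (pp K (k j) - wk K (2 * k j) g)
  have hFneg : ∀ j, Neg (F j) := fun j =>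
    neg_smul (hNGP Q K hK (k j)).1 (inv_nonneg.2 (hpos _).le)
  have hFF : ∀ j g, av K (av K (F j)) g - F j g =
      (aa K (k j))⁻¹ * (wk K (2 * k j) g - wk K (2 * k j + 2) g) := by
    intro j g
    have e1 : av K (av K (F j)) = fun x => (aa K (k j))⁻¹ *
        (pp K (k j) - av K (av K (wk K (2 * k j))) x) := by
      rw [show F j = fun g => (aa K (k j))⁻¹ * (pp K (k j) - wk K (2 * k j) g) from rfl,
        av_aff hK, av_aff hK]
    have e2 : av K (av K (wk K (2 * k j))) = wk K (2 * k j + 2) := by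
      simp only [wk]
      rw [Function.iterate_succ_apply', Function.iterate_succ_apply']
    rw [e1, e2]
    simp only [F]
    ring
  have hbd : ∀ g : Q, ∃ M : ℝ, 0 ≤ M ∧ ∀ j, F j g ∈ Set.Icc 0 M ∧
      av K (av K (F j)) g - F j g ∈ Set.Icc (1 - M / ((j : ℝ) + 1)) 1 := by
    intro g
    obtain ⟨n, hn⟩ := exists_pow hK g
    refine ⟨(n : ℝ) ^ 2 * (K.card : ℝ) ^ 2, by positivity, fun j => ?_⟩
    have ha := hpos (k j)
    obtain ⟨b1, b2⟩ := hBND Q K hK (k j) n g hn
    have hM : (0 : ℝ) ≤ (n : ℝ) ^ 2 * (K.card : ℝ) ^ 2 := by positivity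
    refine ⟨⟨(hFneg j).nonneg g, ?_⟩, ?_, ?_⟩
    · simp only [F]
      rw [inv_mul_le_iff₀ ha]
      linarith
    · rw [hFF]
      rw [le_inv_mul_iff₀ ha]
      have h3 : aa K (k j) - aa K (k j + 1) ≤ 1 / ((j : ℝ) + 1) * aa K (k j) := by
        have := hk j
        linarith
      have h4 := mul_le_mul_of_nonneg_left h3 hM
      have h5 : aa K (k j) * (1 - (n : ℝ) ^ 2 * (K.card : ℝ) ^ 2 / ((j : ℝ) + 1)) =
          aa K (k j) - (n : ℝ) ^ 2 * (K.card : ℝ) ^ 2 * (1 / ((j : ℝ) + 1) * aa K (k j)) := by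
        ring
      rw [h5]
      linarith
    · rw [hFF, inv_mul_le_iff₀ ha, mul_one]
      have := (hNGP Q K hK (k j)).2.nonneg g
      linarith
  have hlim : ∀ g : Q, ∃ y : ℝ, Tendsto (fun j => F j g) (hyperfilter ℕ) (𝓝 y) := by
    intro g
    obtain ⟨M, -, hM⟩ := hbd g
    have hc : IsCompact (Set.Icc (0 : ℝ) M) := isCompact_Icc
    have hmem : Set.Icc (0 : ℝ) M ∈ (hyperfilter ℕ).map (fun j => F j g) :=
      Ultrafilter.mem_map.2 (Filter.Eventually.of_forall fun j => (hM j).1)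
    obtain ⟨y, -, hy⟩ := hc.ultrafilter_le_nhds' _ hmem
    exact ⟨y, hy⟩
  choose ψ hψ using hlim
  have hav : ∀ g, Tendsto (fun j => av K (av K (F j)) g) (hyperfilter ℕ)
      (𝓝 (av K (av K ψ) g)) := fun g => av_tendsto K (fun x => av_tendsto K hψ x) g
  refine ⟨ψ, ?_, fun g => ?_⟩
  · refine ⟨?_, fun g => ?_, fun g => ?_, fun g h => ?_, fun x s h => ?_⟩
    · have : Tendsto (fun j => F j 1) (hyperfilter ℕ) (𝓝 0) := by
        simp only [fun j => (hFneg j).one]
        exact tendsto_const_nhds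
      exact tendsto_nhds_unique (hψ 1) this
    · have h1 := hψ g⁻¹
      simp only [fun j => (hFneg j).inv g] at h1
      exact tendsto_nhds_unique h1 (hψ g)
    · exact ge_of_tendsto' (hψ g) fun j => (hFneg j).nonneg g
    · exact le_of_tendsto_of_tendsto'
        ((Real.continuous_sqrt.tendsto _).comp (hψ (g * h)))
        (((Real.continuous_sqrt.tendsto _).comp (hψ g)).add
          ((Real.continuous_sqrt.tendsto _).comp (hψ h)))
        fun j => (hFneg j).tri g h
    · exact le_of_tendsto_of_tendsto'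
        ((((hψ (h⁻¹ * x * s)).sub (hψ (h⁻¹ * x))).sub (hψ (x * s))).add (hψ x)).abs
        ((((Real.continuous_sqrt.tendsto _).comp (hψ s)).mul
          ((Real.continuous_sqrt.tendsto _).comp (hψ h))).const_mul 2)
        fun j => (hFneg j).four x s h
  · obtain ⟨M, hM0, hM⟩ := hbd g
    have h1 : Tendsto (fun j : ℕ => 1 - M / ((j : ℝ) + 1)) (hyperfilter ℕ) (𝓝 1) := by
      have h0 : Tendsto (fun j : ℕ => M / ((j : ℝ) + 1)) atTop (𝓝 0) :=
        tendsto_const_nhds.div_atTop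
          (tendsto_atTop_add_const_right _ _ tendsto_natCast_atTop_atTop)
      have := (tendsto_const_nhds (x := (1 : ℝ))).sub h0
      rw [sub_zero] at this
      exact this.mono_left Nat.hyperfilter_le_atTop
    have h2 : Tendsto (fun j => av K (av K (F j)) g - F j g) (hyperfilter ℕ) (𝓝 1) :=
      tendsto_of_tendsto_of_tendsto_of_le_of_le h1 tendsto_const_nhds
        (fun j => (hM j).2.1) (fun j => (hM j).2.2)
    have h3 := tendsto_nhds_unique ((hav g).sub (hψ g)) h2
    linarith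

end Pool.Agent.NGM.H40
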